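import Pool.Agent.X261.IF.Free

set_option autoImplicit false

namespace Pool.Agent.X261.IF

variable {k : ℕ}

/-- Index type of the generators of the first factor. -/
abbrev AA (k : ℕ) : Type := Finset (Fin k) × Bool

/-- Index type of the coordinates of the abelian factor. -/
abbrev BB (k : ℕ) : Type := Finset (Fin k) × Fin k

/-- The retraction onto the free factor of the blocks satisfying `S`. -/
def r (S : Finset (Fin k) → Prop) [DecidablePred S] : FreeGroup (AA k) →* FreeGroup (AA k) :=
  FreeGroup.lift (fun p => if S p.1 then FreeGroup.of p else 1)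

lemma r_of (S : Finset (Fin k) → Prop) [DecidablePred S] (p : AA k) :
    r S (FreeGroup.of p) = if S p.1 then FreeGroup.of p else 1 := by
  simp [r]

lemma r_r (S T W : Finset (Fin k) → Prop) [DecidablePred S] [DecidablePred T] [DecidablePred W]
    (h : ∀ J, W J ↔ S J ∧ T J) (u : FreeGroup (AA k)) : r S (r T u) = r W u := by
  have : (r S).comp (r T) = r W := by
    apply FreeGroup.ext_hom
    intro p
    rw [MonoidHom.comp_apply, r_of, r_of]
    by_cases hT : T p.1
    · by_cases hS : S p.1
      · rw [if_pos hT, r_of, if_pos hS, if_pos ((h _).2 ⟨hS, hT⟩)]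
      · rw [if_pos hT, r_of, if_neg hS, if_neg (fun h' => hS ((h _).1 h').1)]
    · rw [if_neg hT, map_one, if_neg (fun h' => hT ((h _).1 h').2)]
  rw [← this, MonoidHom.comp_apply]

lemma fix_iff (I : Finset (Fin k)) (u : FreeGroup (AA k)) :
    (∀ i ∈ I, r (fun J => i ∈ J) u = u) ↔ r (fun J => I ⊆ J) u = u := by
  induction I using Finset.induction_on with
  | empty =>
    have : r (fun J : Finset (Fin k) => ∅ ⊆ J) = MonoidHom.id _ := by
      apply FreeGroup.ext_hom
      intro p
      rw [r_of, if_pos (Finset.empty_subset _)]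
      rfl
    rw [this]
    simp
  | insert i I hi ih =>
    constructor
    · intro h
      have h1 := h i (Finset.mem_insert_self i I)
      have h2 := ih.1 (fun j hj => h j (Finset.mem_insert_of_mem hj))
      have h3 := r_r (fun J => i ∈ J) (fun J => I ⊆ J) (fun J => insert i I ⊆ J)
        (fun J => Finset.insert_subset_iff) u
      rw [← h3, h2, h1]
    · intro h j hj
      have h3 := r_r (fun J => j ∈ J) (fun J => insert i I ⊆ J) (fun J => insert i I ⊆ J)
        (fun J => ⟨fun h => ⟨h hj, h⟩, fun h => h.2⟩) u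
      rw [h] at h3
      exact h3

/-- The exponent sum of `a_J`. -/
def χ (J : Finset (Fin k)) : FreeGroup (AA k) →* Multiplicative ℤ :=
  FreeGroup.lift (fun p => if p = (J, true) then Multiplicative.ofAdd 1 else 1)

lemma χ_of (J : Finset (Fin k)) (p : AA k) :
    χ J (FreeGroup.of p) = if p = (J, true) then Multiplicative.ofAdd (1 : ℤ) else 1 := by
  simp [χ]

lemma χ_r (J : Finset (Fin k)) (S : Finset (Fin k) → Prop) [DecidablePred S] (hS : ¬ S J)
    (u : FreeGroup (AA k)) : χ J (r S u) = 1 := by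
  have : (χ J).comp (r S) = 1 := by
    apply FreeGroup.ext_hom
    intro p
    rw [MonoidHom.comp_apply, r_of, MonoidHom.one_apply]
    by_cases h : S p.1
    · rw [if_pos h, χ_of, if_neg]
      rintro rfl
      exact hS h
    · rw [if_neg h, map_one]
  rw [← MonoidHom.comp_apply, this, MonoidHom.one_apply]

/-- The ambient group of the first construction. -/
abbrev W (k : ℕ) : Type := FreeGroup (AA k) × Multiplicative (BB k → ℤ)

/-- The subgroups of the first construction. -/
def HH (c : Finset (Fin k) → Bool) (i : Fin k) : Subgroup (W k) where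
  carrier := {p | r (fun J => i ∈ J) p.1 = p.1 ∧
    (∀ J, c J = true → ∑ j ∈ J, Multiplicative.toAdd p.2 (J, j) =
      Multiplicative.toAdd (χ J p.1)) ∧
    ∀ J, i ∈ J → Multiplicative.toAdd p.2 (J, i) = 0}
  mul_mem' := by
    rintro p q ⟨h1, h2, h3⟩ ⟨h1', h2', h3'⟩
    refine ⟨?_, ?_, ?_⟩
    · rw [Prod.fst_mul, map_mul, h1, h1']
    · intro J hJ
      rw [Prod.fst_mul, Prod.snd_mul, map_mul (χ J), toAdd_mul, toAdd_mul, ← h2 J hJ, ← h2' J hJ,
        ← Finset.sum_add_distrib]
      rfl
    · intro J hJ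
      rw [Prod.snd_mul, toAdd_mul, Pi.add_apply, h3 J hJ, h3' J hJ, add_zero]
  one_mem' := by
    refine ⟨?_, ?_, ?_⟩
    · rw [Prod.fst_one, map_one]
    · intro J hJ
      rw [Prod.fst_one, Prod.snd_one, map_one (χ J), toAdd_one, toAdd_one]
      simp
    · intro J hJ
      rw [Prod.snd_one, toAdd_one]
      rfl
  inv_mem' := by
    rintro p ⟨h1, h2, h3⟩
    refine ⟨?_, ?_, ?_⟩
    · rw [Prod.fst_inv, map_inv, h1]
    · intro J hJ
      rw [Prod.fst_inv, Prod.snd_inv, map_inv (χ J), toAdd_inv, toAdd_inv, ← h2 J hJ,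
        ← Finset.sum_neg_distrib]
      rfl
    · intro J hJ
      rw [Prod.snd_inv, toAdd_inv, Pi.neg_apply, h3 J hJ, neg_zero]

lemma mem_HH (c : Finset (Fin k) → Bool) (i : Fin k) (p : W k) : p ∈ HH c i ↔
    r (fun J => i ∈ J) p.1 = p.1 ∧
    (∀ J, c J = true → ∑ j ∈ J, Multiplicative.toAdd p.2 (J, j) =
      Multiplicative.toAdd (χ J p.1)) ∧
    ∀ J, i ∈ J → Multiplicative.toAdd p.2 (J, i) = 0 := Iff.rfl

lemma mem_inf (c : Finset (Fin k) → Bool) (I : Finset (Fin k)) (hI : I.Nonempty) (p : W k) :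
    p ∈ (⨅ i ∈ I, HH c i) ↔
    r (fun J => I ⊆ J) p.1 = p.1 ∧
    (∀ J, c J = true → ∑ j ∈ J, Multiplicative.toAdd p.2 (J, j) =
      Multiplicative.toAdd (χ J p.1)) ∧
    ∀ i ∈ I, ∀ J, i ∈ J → Multiplicative.toAdd p.2 (J, i) = 0 := by
  simp only [Subgroup.mem_iInf, mem_HH]
  constructor
  · intro h
    obtain ⟨i₀, hi₀⟩ := hI
    exact ⟨(fix_iff I p.1).1 (fun i hi => (h i hi).1), (h i₀ hi₀).2.1,
      fun i hi => (h i hi).2.2⟩
  · rintro ⟨h1, h2, h3⟩ i hi
    exact ⟨(fix_iff I p.1).2 h1 i hi, h2, h3 i hi⟩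

lemma fg_free {α : Type*} [Finite α] : (⊤ : Subgroup (FreeGroup α)).FG := by
  classical
  have := Fintype.ofFinite α
  refine ⟨Finset.univ.image FreeGroup.of, ?_⟩
  rw [Finset.coe_image, Finset.coe_univ, Set.image_univ]
  exact FreeGroup.closure_range_of α

lemma fg_of_false (c : Finset (Fin k) → Bool) (I : Finset (Fin k)) (hI : I.Nonempty)
    (hc : c I = false) : (⨅ i ∈ I, HH c i).FG := by
  classical
  apply fg_of_ext (MonoidHom.fst (FreeGroup (AA k)) (Multiplicative (BB k → ℤ)))
  · have h1 : (⨅ i ∈ I, HH c i) ⊓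
        (MonoidHom.fst (FreeGroup (AA k)) (Multiplicative (BB k → ℤ))).ker =
        ((⨅ i ∈ I, HH c i).comap (MonoidHom.inr _ _)).map
          (MonoidHom.inr (FreeGroup (AA k)) (Multiplicative (BB k → ℤ))) := by
      ext p
      rw [Subgroup.mem_inf, MonoidHom.mem_ker, Subgroup.mem_map]
      constructor
      · rintro ⟨h1, h2⟩
        have h3 : p = (1, p.2) := Prod.ext h2 rfl
        refine ⟨p.2, ?_, h3.symm⟩
        rw [Subgroup.mem_comap]
        rw [h3] at h1
        exact h1
      · rintro ⟨x, hx, rfl⟩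
        exact ⟨hx, rfl⟩
    rw [h1]
    exact fg_map (fg_of_int _) _
  · have h1 : (⨅ i ∈ I, HH c i).map
        (MonoidHom.fst (FreeGroup (AA k)) (Multiplicative (BB k → ℤ))) =
        (⊤ : Subgroup (FreeGroup (AA k))).map (r (fun J => I ⊆ J)) := by
      ext u
      rw [Subgroup.mem_map, Subgroup.mem_map]
      constructor
      · rintro ⟨p, hp, rfl⟩
        rw [mem_inf c I hI] at hp
        exact ⟨p.1, trivial, hp.1⟩
      · rintro ⟨v, -, rfl⟩
        set u := r (fun J => I ⊆ J) v with hu
        have hid : r (fun J => I ⊆ J) u = u :=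
          r_r (fun J => I ⊆ J) (fun J => I ⊆ J) (fun J => I ⊆ J) (fun J => (and_self_iff).symm) v
        refine ⟨(u, Multiplicative.ofAdd (fun p : BB k =>
          if h : (p.1 \ I).Nonempty then
            (if p.2 = h.choose then Multiplicative.toAdd (χ p.1 u) else 0) else 0)), ?_, rfl⟩
        rw [mem_inf c I hI]
        refine ⟨hid, ?_, ?_⟩
        · intro J hJ
          simp only [toAdd_ofAdd]
          by_cases h : (J \ I).Nonempty
          · simp only [dif_pos h]
            have h2 := h.choose_spec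
            rw [Finset.sum_ite_eq' J h.choose, if_pos (Finset.mem_sdiff.1 h2).1]
          · simp only [dif_neg h, Finset.sum_const_zero]
            have h2 : J ⊆ I := by
              rw [Finset.not_nonempty_iff_eq_empty, Finset.sdiff_eq_empty_iff_subset] at h
              exact h
            have h3 : ¬ I ⊆ J := by
              intro h3
              have : J = I := Finset.Subset.antisymm h2 h3
              rw [this, hc] at hJ
              exact absurd hJ (by decide)
            rw [hu, χ_r J (fun J => I ⊆ J) h3 v, toAdd_one]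
        · intro i hi J hJ
          simp only [toAdd_ofAdd]
          by_cases h : (J \ I).Nonempty
          · simp only [dif_pos h]
            rw [if_neg]
            intro h4
            exact (Finset.mem_sdiff.1 h.choose_spec).2 (h4 ▸ hi)
          · simp only [dif_neg h]
    rw [h1]
    exact fg_map fg_free _

/-- Multiplication by two. -/
def dbl : Equiv.Perm ℚ where
  toFun y := 2 * y
  invFun y := y / 2
  left_inv y := by ring
  right_inv y := by ring

/-- Translation by one. -/
def tr : Equiv.Perm ℚ where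
  toFun y := y + 1
  invFun y := y - 1
  left_inv y := by ring
  right_inv y := by ring

/-- The affine action of the free group. -/
def θ (I : Finset (Fin k)) : FreeGroup (AA k) →* Equiv.Perm ℚ :=
  FreeGroup.lift (fun p => if p = (I, true) then dbl else if p = (I, false) then tr else 1)

lemma θ_of (I : Finset (Fin k)) (p : AA k) :
    θ I (FreeGroup.of p) = if p = (I, true) then dbl else if p = (I, false) then tr else 1 := by
  simp [θ]

lemma θ_affine (I : Finset (Fin k)) (u : FreeGroup (AA k)) (y : ℚ) :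
    θ I u y = (2 : ℚ) ^ (Multiplicative.toAdd (χ I u)) * y + θ I u 0 := by
  have hinv : ∀ (g : Equiv.Perm ℚ) (n : ℤ), (∀ y, g y = (2 : ℚ) ^ n * y + g 0) →
      ∀ y, g⁻¹ y = (2 : ℚ) ^ (-n) * y + g⁻¹ 0 := by
    intro g n hg y
    have h1 : g (g⁻¹ y) = y := g.apply_symm_apply y
    have h2 : g (g⁻¹ 0) = 0 := g.apply_symm_apply 0
    rw [hg] at h1 h2
    rw [zpow_neg]
    have h3 : (2 : ℚ) ^ n ≠ 0 := zpow_ne_zero _ (by norm_num)
    field_simp
    linear_combination h1 - h2
  induction u using FreeGroup.induction_on generalizing y with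
  | C1 => simp
  | of p =>
    rw [θ_of, χ_of]
    by_cases h1 : p = (I, true)
    · simp only [if_pos h1, dbl, toAdd_ofAdd, zpow_one, Equiv.coe_fn_mk]
      ring
    · by_cases h2 : p = (I, false)
      · simp only [if_neg h1, if_pos h2, tr, toAdd_one, zpow_zero, Equiv.coe_fn_mk]
        ring
      · simp [if_neg h1, if_neg h2]
  | inv_of p hp =>
    rw [map_inv, map_inv, toAdd_inv]
    exact hinv _ _ (fun y => hp y) y
  | mul x z hx hz =>
    rw [map_mul, map_mul, toAdd_mul, Equiv.Perm.mul_apply, Equiv.Perm.mul_apply, hx, hz,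
      hx (θ I z 0), zpow_add₀ (by norm_num)]
    ring

lemma dbl_pow (n : ℕ) (y : ℚ) : (dbl ^ n) y = 2 ^ n * y := by
  induction n with
  | zero => simp
  | succ n ih =>
    rw [pow_succ', Equiv.Perm.mul_apply, ih]
    show (2 : ℚ) * (2 ^ n * y) = 2 ^ (n + 1) * y
    ring

/-- The test words. -/
def word (I : Finset (Fin k)) (n : ℕ) : FreeGroup (AA k) :=
  (FreeGroup.of (I, true) ^ n)⁻¹ * FreeGroup.of (I, false) * FreeGroup.of (I, true) ^ n

lemma θ_word (I : Finset (Fin k)) (n : ℕ) : θ I (word I n) 0 = 1 / 2 ^ n := by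
  unfold word
  rw [map_mul, map_mul, map_inv, map_pow, θ_of, θ_of, if_pos rfl, if_neg (by simp), if_pos rfl]
  rw [Equiv.Perm.mul_apply, Equiv.Perm.mul_apply, dbl_pow, mul_zero]
  have h : (dbl ^ n) (1 / 2 ^ n) = tr 0 := by
    rw [dbl_pow]
    show _ = (0 : ℚ) + 1
    field_simp
    ring
  rw [← h]
  exact (dbl ^ n).symm_apply_apply _

lemma r_word (I : Finset (Fin k)) (n : ℕ) : r (fun J => I ⊆ J) (word I n) = word I n := by
  unfold word
  rw [map_mul, map_mul, map_inv, map_pow, r_of, r_of, if_pos (Finset.Subset.refl I),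
    if_pos (Finset.Subset.refl I)]

lemma χ_word (J I : Finset (Fin k)) (n : ℕ) : χ J (word I n) = 1 := by
  unfold word
  rw [map_mul, map_mul, map_inv, map_pow, χ_of J (I, false), if_neg (by simp)]
  simp

lemma not_fg_of_true (c : Finset (Fin k) → Bool) (I : Finset (Fin k)) (hI : I.Nonempty)
    (hc : c I = true) : ¬ (⨅ i ∈ I, HH c i).FG := by
  classical
  intro hfg
  have hK := fg_map hfg ((θ I).comp (MonoidHom.fst (FreeGroup (AA k))
    (Multiplicative (BB k → ℤ))))
  set K := (⨅ i ∈ I, HH c i).map ((θ I).comp (MonoidHom.fst (FreeGroup (AA k))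
    (Multiplicative (BB k → ℤ)))) with hKdef
  have htr : ∀ g ∈ K, ∀ y : ℚ, g y = y + g 0 := by
    rintro g ⟨p, hp, rfl⟩ y
    have hp' := (mem_inf c I hI p).1 hp
    have h0 : Multiplicative.toAdd (χ I p.1) = 0 := by
      rw [← hp'.2.1 I hc]
      apply Finset.sum_eq_zero
      intro j hj
      exact hp'.2.2 j hj I hj
    rw [MonoidHom.comp_apply]
    show θ I p.1 y = y + θ I p.1 0
    rw [θ_affine, h0, zpow_zero, one_mul]
  have hw : ∀ n : ℕ, θ I (word I n) ∈ K := by
    intro n
    refine ⟨(word I n, 1), ?_, rfl⟩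
    have : (word I n, (1 : Multiplicative (BB k → ℤ))) ∈ (⨅ i ∈ I, HH c i) := by
      rw [mem_inf c I hI]
      refine ⟨r_word I n, ?_, ?_⟩
      · intro J _
        rw [χ_word, toAdd_one, toAdd_one]
        simp
      · intro i _ J _
        rw [toAdd_one]
        rfl
    exact this
  obtain ⟨S, hS⟩ := hK
  set N : ℕ := ∏ g ∈ S, (g 0).den with hN
  have hNpos : 0 < N := Finset.prod_pos fun g _ => (g 0).den_pos
  have hden : ∀ g ∈ Subgroup.closure (S : Set (Equiv.Perm ℚ)),
      (∀ y : ℚ, g y = y + g 0) ∧ ∃ z : ℤ, g 0 * N = z := by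
    intro g hg
    induction hg using Subgroup.closure_induction with
    | mem g hg =>
      refine ⟨htr g (by rw [← hS]; exact Subgroup.subset_closure hg), ?_⟩
      obtain ⟨m, hm⟩ := Finset.dvd_prod_of_mem (fun g : Equiv.Perm ℚ => (g 0).den)
        (Finset.mem_coe.1 hg)
      refine ⟨(g 0).num * m, ?_⟩
      rw [hN, hm]
      push_cast
      rw [← mul_assoc, Rat.mul_den_eq_num]
    | one => exact ⟨fun y => by simp, 0, by simp⟩
    | mul x y _ _ hx hy =>
      obtain ⟨hx1, z, hz⟩ := hx
      obtain ⟨hy1, z', hz'⟩ := hy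
      refine ⟨fun w => ?_, z + z', ?_⟩
      · rw [Equiv.Perm.mul_apply, Equiv.Perm.mul_apply, hx1, hy1, hx1 (y 0)]
        ring
      · rw [Equiv.Perm.mul_apply, hx1]
        push_cast
        rw [← hz, ← hz']
        ring
    | inv x _ hx =>
      obtain ⟨hx1, z, hz⟩ := hx
      have h1 : ∀ w : ℚ, x⁻¹ w = w - x 0 := by
        intro w
        have h2 : x (x⁻¹ w) = w := x.apply_symm_apply w
        rw [hx1] at h2
        linear_combination h2
      refine ⟨fun w => ?_, -z, ?_⟩
      · rw [h1, h1]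
        ring
      · rw [h1]
        push_cast
        rw [← hz]
        ring
  have h1 := (hden (θ I (word I N)) (by rw [hS]; exact hw N)).2
  obtain ⟨z, hz⟩ := h1
  rw [θ_word] at hz
  have h2 : (N : ℤ) = z * 2 ^ N := by
    have h3 : ((N : ℤ) : ℚ) = ((z * 2 ^ N : ℤ) : ℚ) := by
      push_cast
      rw [← hz]
      field_simp
    exact_mod_cast h3
  have h4 : (2 : ℤ) ^ N ∣ (N : ℤ) := ⟨z, by rw [h2]; ring⟩
  have h5 : 2 ^ N ∣ N := by exact_mod_cast h4
  have h6 := Nat.le_of_dvd hNpos h5
  exact absurd h6 (not_le.2 Nat.lt_two_pow_self)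

end Pool.Agent.X261.IF
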