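import Pool.Agent.X261.IF.Gen

set_option autoImplicit false

namespace Pool.Agent.X261.IF

section Ab

variable {B : Type} [Fintype B] [DecidableEq B]

/-- Exponent sums. -/
def ab : FreeGroup B →* Multiplicative (B → ℤ) :=
  FreeGroup.lift (fun b => Multiplicative.ofAdd (Pi.single b 1))

lemma ab_of (b : B) : ab (FreeGroup.of b) = Multiplicative.ofAdd (Pi.single b (1 : ℤ)) := by
  simp [ab]

lemma ab_surj : Function.Surjective (ab : FreeGroup B →* Multiplicative (B → ℤ)) := by
  intro x
  have h : x ∈ (ab : FreeGroup B →* Multiplicative (B → ℤ)).range := by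
    have h1 : x = ∏ b : B, (Multiplicative.ofAdd (Pi.single b (1 : ℤ)) : Multiplicative (B → ℤ)) ^
        (Multiplicative.toAdd x b) := by
      apply Multiplicative.toAdd.injective
      rw [toAdd_prod]
      funext c
      rw [Finset.sum_apply]
      simp only [toAdd_zpow, toAdd_ofAdd, Pi.smul_apply, smul_eq_mul]
      rw [Finset.sum_eq_single c]
      · simp
      · intro b _ hb
        rw [Pi.single_eq_of_ne hb.symm, mul_zero]
      · intro h
        exact absurd (Finset.mem_univ c) h
    rw [h1]
    apply Subgroup.prod_mem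
    intro b _
    apply Subgroup.zpow_mem
    exact ⟨FreeGroup.of b, ab_of b⟩
  exact h

lemma factor {Q : Type} [CommGroup Q] (π : FreeGroup B →* Q) {v w : FreeGroup B}
    (h : ab v = ab w) : π v = π w := by
  let s : Multiplicative (B → ℤ) →* Q := MonoidHom.mk'
    (fun x => ∏ b : B, (π (FreeGroup.of b)) ^ (Multiplicative.toAdd x b)) (by
      intro x y
      rw [← Finset.prod_mul_distrib]
      refine Finset.prod_congr rfl fun b _ => ?_
      rw [toAdd_mul, Pi.add_apply, zpow_add])
  have hs : s.comp ab = π := by
    apply FreeGroup.ext_hom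
    intro b
    rw [MonoidHom.comp_apply, ab_of]
    show ∏ c : B, (π (FreeGroup.of c)) ^ (Pi.single b (1 : ℤ) : B → ℤ) c = _
    rw [Finset.prod_eq_single b]
    · simp
    · intro c _ hc
      rw [Pi.single_eq_of_ne hc, zpow_zero]
    · intro h
      exact absurd (Finset.mem_univ b) h
  rw [← hs, MonoidHom.comp_apply, MonoidHom.comp_apply, h]

/-- The difference map. -/
def δ : FreeGroup B × FreeGroup B →* Multiplicative (B → ℤ) :=
  ab.comp (MonoidHom.fst _ _) / ab.comp (MonoidHom.snd _ _)

lemma δ_apply (v w : FreeGroup B) : δ (v, w) = ab v / ab w := rfl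

lemma δ_surj : Function.Surjective (δ : FreeGroup B × FreeGroup B →* Multiplicative (B → ℤ)) := by
  intro x
  obtain ⟨v, rfl⟩ := ab_surj x
  exact ⟨(v, 1), by rw [δ_apply, map_one, div_one]⟩

lemma δ_ker_fg : (δ : FreeGroup B × FreeGroup B →* Multiplicative (B → ℤ)).ker.FG := by
  classical
  set S : Finset (FreeGroup B × FreeGroup B) :=
    Finset.univ.image (fun b : B => (FreeGroup.of b, FreeGroup.of b)) ∪
    Finset.univ.image (fun b : B × B =>
      (FreeGroup.of b.1 * FreeGroup.of b.2 * (FreeGroup.of b.1)⁻¹ * (FreeGroup.of b.2)⁻¹, 1))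
    with hS
  set P := Subgroup.closure (S : Set (FreeGroup B × FreeGroup B)) with hP
  have h1 : ∀ g : FreeGroup B, (g, g) ∈ P := by
    intro g
    induction g using FreeGroup.induction_on with
    | C1 => exact P.one_mem
    | of b =>
      apply Subgroup.subset_closure
      rw [hS]
      simp
    | inv_of b hb => exact P.inv_mem hb
    | mul x y hx hy => exact P.mul_mem hx hy
  set N : Subgroup (FreeGroup B) := P.comap (MonoidHom.inl _ _) with hN
  have hNn : N.Normal := by
    constructor
    intro n hn g
    have hn' : (n, (1 : FreeGroup B)) ∈ P := hn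
    show (g * n * g⁻¹, (1 : FreeGroup B)) ∈ P
    have := P.mul_mem (P.mul_mem (h1 g) hn') (P.inv_mem (h1 g))
    simpa using this
  have hcc : ∀ b b' : B, Commute (QuotientGroup.mk' N (FreeGroup.of b))
      (QuotientGroup.mk' N (FreeGroup.of b')) := by
    intro b b'
    have h2 : FreeGroup.of b * FreeGroup.of b' * (FreeGroup.of b)⁻¹ * (FreeGroup.of b')⁻¹ ∈ N := by
      show (_, (1 : FreeGroup B)) ∈ P
      apply Subgroup.subset_closure
      rw [hS, Finset.coe_union]
      right
      simp only [Finset.coe_image, Finset.coe_univ, Set.image_univ]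
      exact ⟨(b, b'), rfl⟩
    have h3 := (QuotientGroup.eq_one_iff (N := N) _).2 h2
    have h4 : QuotientGroup.mk' N (FreeGroup.of b) * QuotientGroup.mk' N (FreeGroup.of b') *
      (QuotientGroup.mk' N (FreeGroup.of b))⁻¹ * (QuotientGroup.mk' N (FreeGroup.of b'))⁻¹ = 1 := h3
    rw [mul_inv_eq_one, mul_inv_eq_iff_eq_mul] at h4
    exact h4
  have hc1 : ∀ (b : B) (y : FreeGroup B), Commute (QuotientGroup.mk' N (FreeGroup.of b))
      (QuotientGroup.mk' N y) := by
    intro b y
    induction y using FreeGroup.induction_on with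
    | C1 => rw [map_one]; exact Commute.one_right _
    | of b' => exact hcc b b'
    | inv_of b' hb => rw [map_inv]; exact hb.inv_right
    | mul x y hx hy => rw [map_mul]; exact hx.mul_right hy
  have hc2 : ∀ (x y : FreeGroup B), Commute (QuotientGroup.mk' N x)
      (QuotientGroup.mk' N y) := by
    intro x y
    induction x using FreeGroup.induction_on with
    | C1 => rw [map_one]; exact Commute.one_left _
    | of b' => exact hc1 b' y
    | inv_of b' hb => rw [map_inv]; exact hb.inv_left
    | mul x y hx hy => rw [map_mul]; exact hx.mul_left hy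
  have hcomm : ∀ x y : FreeGroup B ⧸ N, x * y = y * x := by
    intro x y
    obtain ⟨x, rfl⟩ := QuotientGroup.mk'_surjective N x
    obtain ⟨y, rfl⟩ := QuotientGroup.mk'_surjective N y
    exact hc2 x y
  refine ⟨S, le_antisymm ?_ ?_⟩
  · rw [Subgroup.closure_le]
    intro x hx
    rw [hS] at hx
    rcases Finset.mem_union.1 (Finset.mem_coe.1 hx) with h | h
    · obtain ⟨b, _, rfl⟩ := Finset.mem_image.1 h
      show _ = _
      rw [δ_apply, div_self']
    · obtain ⟨b, _, rfl⟩ := Finset.mem_image.1 h
      show _ = _
      rw [δ_apply, map_one, div_one, map_mul, map_mul, map_mul, map_inv, map_inv]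
      simp
  · rintro ⟨v, w⟩ hvw
    rw [MonoidHom.mem_ker, δ_apply, div_eq_one] at hvw
    let cg : CommGroup (FreeGroup B ⧸ N) :=
      { (inferInstance : Group (FreeGroup B ⧸ N)) with mul_comm := hcomm }
    have h5 := @factor B _ _ (FreeGroup B ⧸ N) cg (QuotientGroup.mk' N) v w hvw
    have h6 : v⁻¹ * w ∈ N := QuotientGroup.eq.1 h5
    have h7 : (v⁻¹ * w, (1 : FreeGroup B)) ∈ P := h6
    have h8 := P.mul_mem (h1 w) (P.inv_mem h7)
    have h9 : (w, w) * (v⁻¹ * w, (1 : FreeGroup B))⁻¹ = (v, w) := by
      simp
    rw [h9] at h8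
    exact h8

end Ab

section Embed

/-- The shift action. -/
def shift : Multiplicative ℤ →* MulAut (FreeGroup ℤ) where
  toFun n := FreeGroup.freeGroupCongr (Equiv.addRight (Multiplicative.toAdd n))
  map_one' := by
    ext x
    simp
  map_mul' n m := by
    apply MulEquiv.toMonoidHom_injective
    apply FreeGroup.ext_hom
    intro i
    simp [add_comm, add_left_comm]

/-- The comparison map. -/
def comp2 : FreeGroup (Fin 2) →* FreeGroup ℤ ⋊[shift] Multiplicative ℤ :=
  FreeGroup.lift ![SemidirectProduct.inr (Multiplicative.ofAdd 1),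
    SemidirectProduct.inl (FreeGroup.of 0)]

/-- The embedding of the free group of countable rank. -/
def emb : FreeGroup ℤ →* FreeGroup (Fin 2) :=
  FreeGroup.lift (fun i => (FreeGroup.of 0) ^ i * FreeGroup.of 1 * ((FreeGroup.of 0) ^ i)⁻¹)

lemma comp2_emb : comp2.comp emb = SemidirectProduct.inl := by
  apply FreeGroup.ext_hom
  intro i
  simp only [MonoidHom.comp_apply, emb, FreeGroup.lift_apply_of, map_mul, map_inv, map_zpow, comp2,
    Matrix.cons_val_zero, Matrix.cons_val_one]
  rw [← map_zpow, ← map_inv, ← SemidirectProduct.inl_aut]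
  congr 1
  simp [shift]

lemma emb_injective : Function.Injective emb := by
  have h : Function.Injective (comp2.comp emb) := by
    rw [comp2_emb]
    exact SemidirectProduct.inl_injective
  rw [MonoidHom.coe_comp] at h
  exact Function.Injective.of_comp h

/-- Every free group of countable rank embeds in the free group of rank two. -/
lemma exists_emb (α : Type) [Countable α] :
    ∃ f : FreeGroup α →* FreeGroup (Fin 2), Function.Injective f := by
  obtain ⟨g, hg⟩ := Countable.exists_injective_nat α
  refine ⟨emb.comp (FreeGroup.map (fun a => (g a : ℤ))), ?_⟩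
  rw [MonoidHom.coe_comp]
  apply emb_injective.comp
  apply FreeGroup.map_injective
  intro a b h
  apply hg
  exact Int.ofNat_inj.1 h

end Embed

end Pool.Agent.X261.IF
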