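import Mathlib

set_option autoImplicit false

namespace Pool.Agent.X261.IF

section FG

variable {G Q : Type*} [Group G] [Group Q]

lemma fg_map {H : Subgroup G} (hH : H.FG) (f : G →* Q) : (H.map f).FG := by
  classical
  obtain ⟨S, hS⟩ := hH
  refine ⟨S.image f, ?_⟩
  rw [Finset.coe_image, ← MonoidHom.map_closure, hS]

lemma fg_of_map_injective {H : Subgroup G} {f : G →* Q} (hf : Function.Injective f)
    (h : (H.map f).FG) : H.FG := by
  rw [Subgroup.fg_iff_submonoid_fg] at h ⊢
  exact Submonoid.FG.map_injective f hf h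

/-- Extension lemma. -/
lemma fg_of_ext {H : Subgroup G} (f : G →* Q) (h1 : (H ⊓ f.ker).FG) (h2 : (H.map f).FG) :
    H.FG := by
  classical
  obtain ⟨S, hS⟩ := h1
  obtain ⟨T, hT⟩ := h2
  have hT' : ∀ t : Q, ∃ g : G, t ∈ T → g ∈ H ∧ f g = t := by
    intro t
    by_cases ht : t ∈ T
    · have : t ∈ H.map f := by
        rw [← hT]
        exact Subgroup.subset_closure ht
      obtain ⟨g, hg, hgt⟩ := this
      exact ⟨g, fun _ => ⟨hg, hgt⟩⟩
    · exact ⟨1, fun h => absurd h ht⟩
  choose s hs using hT'
  refine ⟨S ∪ T.image s, ?_⟩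
  apply le_antisymm
  · rw [Subgroup.closure_le]
    intro x hx
    rcases Finset.mem_union.1 (Finset.mem_coe.1 hx) with h | h
    · have : x ∈ H ⊓ f.ker := by
        rw [← hS]
        exact Subgroup.subset_closure h
      exact this.1
    · obtain ⟨t, ht, rfl⟩ := Finset.mem_image.1 h
      exact (hs t ht).1
  · intro x hx
    set P := Subgroup.closure ((S ∪ T.image s : Finset G) : Set G) with hP
    have h3 : H.map f ≤ P.map f := by
      rw [← hT, Subgroup.closure_le]
      intro t ht
      exact ⟨s t, Subgroup.subset_closure (by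
        simp only [Finset.coe_union, Finset.coe_image, Set.mem_union, Set.mem_image]
        exact Or.inr ⟨t, ht, rfl⟩), (hs t ht).2⟩
    obtain ⟨y, hy, hyx⟩ := h3 ⟨x, hx, rfl⟩
    have hPH : P ≤ H := by
      rw [hP, Subgroup.closure_le]
      intro z hz
      rcases Finset.mem_union.1 (Finset.mem_coe.1 hz) with h | h
      · have : z ∈ H ⊓ f.ker := by
          rw [← hS]
          exact Subgroup.subset_closure h
        exact this.1
      · obtain ⟨t, ht, rfl⟩ := Finset.mem_image.1 h
        exact (hs t ht).1
    have h4 : y⁻¹ * x ∈ H ⊓ f.ker := by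
      refine Subgroup.mem_inf.2 ⟨H.mul_mem (H.inv_mem (hPH hy)) hx, ?_⟩
      rw [MonoidHom.mem_ker, map_mul, map_inv, hyx, inv_mul_cancel]
    have h5 : y⁻¹ * x ∈ P := by
      have h6 : H ⊓ f.ker ≤ P := by
        rw [← hS, hP]
        apply Subgroup.closure_mono
        simp
      exact h6 h4
    have := P.mul_mem hy h5
    simpa using this

lemma fg_comap_iff {f : G →* Q} (hf : Function.Surjective f) (hk : f.ker.FG) (H : Subgroup Q) :
    (H.comap f).FG ↔ H.FG := by
  constructor
  · intro h
    have := fg_map h f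
    rwa [Subgroup.map_comap_eq_self_of_surjective hf] at this
  · intro h
    apply fg_of_ext f
    · have : H.comap f ⊓ f.ker = f.ker := by
        apply inf_eq_right.2
        intro x hx
        rw [Subgroup.mem_comap, (MonoidHom.mem_ker).1 hx]
        exact H.one_mem
      rw [this]
      exact hk
    · rw [Subgroup.map_comap_eq_self_of_surjective hf]
      exact h

/-- Subgroups of `ℤ^n` are finitely generated. -/
lemma fg_of_int {β : Type*} [Finite β] (H : Subgroup (Multiplicative (β → ℤ))) : H.FG := by
  have h1 : (Subgroup.toAddSubgroup' H).FG := by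
    have : IsNoetherian ℤ (β → ℤ) := inferInstance
    have h2 := this.noetherian (AddSubgroup.toIntSubmodule (Subgroup.toAddSubgroup' H))
    rw [Submodule.fg_iff_addSubgroup_fg] at h2
    simpa using h2
  rw [AddSubgroup.fg_iff_mul_fg] at h1
  exact h1

end FG

end Pool.Agent.X261.IF
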